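import Pool.Agent.H17.EQ.TargetsQ
import Pool.Agent.H17.BO.HGT

/-!
# HGR: from the parameter of a rational normal curve to the point
-/

set_option autoImplicit false

namespace Pool.Agent.H63.EQ

open MvPolynomial SC Pool.Agent.H27.LV Pool.Agent.H17.VG Pool.Agent.H17.BO Pool.Agent.H30.EE
  Pool.Agent.H17.EQ

theorem pf_HGR (hROT : T_ROT) (hALP : H17.EQ.T_ALP) (hHLK : T_HLK) (hHTA : T_HTA) (hHTR : T_HTR) :
    T_HGR := by
  classical
  intro n r N
  obtain ⟨c1, hc1⟩ : ∃ c1, c1 = (N + 1) * (1 + N * N) := ⟨_, rfl⟩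
  obtain ⟨c2, hc2⟩ : ∃ c2, c2 = (r + 2) * (r + 1 + c1) := ⟨_, rfl⟩
  refine ⟨(n + 1) * (2 * c2), ?_⟩
  intro k K L _ _ _ _ _ _ _ _ _ _ _ _ htr htrL d F x p hd hF hp hFx U Z V B hcon hH θ hθ α hα
  have hKz : CharZero K := charZero_of_injective_algebraMap (algebraMap k K).injective
  have hLz : CharZero L := charZero_of_injective_algebraMap (algebraMap k L).injective
  have hA := hHTA k L htrL
  have hadd : ∀ z w : L, h1 k (z + w) ≤ h1 k z + h1 k w := fun z w => (hA z w).1
  have hmul : ∀ z w : L, h1 k (z * w) ≤ h1 k z + h1 k w := fun z w => (hA z w).2.1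
  have hinv : ∀ z : L, h1 k z⁻¹ = h1 k z := fun z => (hA z z).2.2.1
  have hcst : ∀ a : k, h1 k (algebraMap k L a) = 0 := fun a => (hA 0 0).2.2.2.1 a
  have hz0 : h1 k (0 : L) = 0 := by rw [← map_zero (algebraMap k L)]; exact hcst 0
  have hz1 : h1 k (1 : L) = 0 := by rw [← map_one (algebraMap k L)]; exact hcst 1
  have hdiv : ∀ z w : L, h1 k (z / w) ≤ h1 k z + h1 k w := by
    intro z w
    rw [div_eq_mul_inv, ← hinv w]
    exact hmul _ _
  have hK := (hHLK k K L htr htrL).1
  obtain ⟨M, hM⟩ : ∃ M, M = Module.finrank K L * B := ⟨_, rfl⟩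
  have hKB : ∀ a : K, h1 k a ≤ B → h1 k (algebraMap K L a) ≤ M := by
    intro a ha
    rw [hK, hM]
    exact Nat.mul_le_mul_left _ ha
  have hPB : ∀ (W : Polynomial K) (i : ℕ), hP k W ≤ B → h1 k (algebraMap K L (W.coeff i)) ≤ M := by
    intro W i hW
    apply hKB
    by_cases hi : i < W.natDegree + 1
    · have h2 := ((hHTA k K htr 0 0).2.2.2.2 (Fin (W.natDegree + 1))
        (fun i => W.coeff i)).1 ⟨i, hi⟩
      exact h2.trans hW
    · rw [Polynomial.coeff_eq_zero_of_natDegree_lt (by omega)]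
      have h2 := (hHTA k K htr 0 0).2.2.2.1 0
      rw [map_zero] at h2
      rw [h2]
      exact Nat.zero_le _
  -- height of theta
  have hθB : h1 k θ ≤ N * M := by
    have h2 := hHTR k L htrL U.natDegree (fun i => algebraMap K L (U.coeff i)) θ (by
      rw [← hθ, Polynomial.eval_map, Polynomial.eval₂_eq_sum_range, Finset.sum_range_succ,
        hcon.monic.coeff_natDegree, map_one, one_mul, ← Fin.sum_univ_eq_sum_range
        (fun i => algebraMap K L (U.coeff i) * θ ^ i), add_comm])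
    have h3 : ∀ i ∈ (Finset.univ : Finset (Fin U.natDegree)),
        h1 k (algebraMap K L (U.coeff (i : ℕ))) ≤ M := fun i _ => hPB U i hH.hU
    refine h2.trans ((Finset.sum_le_sum h3).trans ?_)
    rw [Finset.sum_const, Finset.card_univ, Fintype.card_fin, smul_eq_mul]
    exact Nat.mul_le_mul_right _ hH.dU
  obtain ⟨ζ, hζ⟩ : ∃ ζ : Fin (r + 1 + 1) → Fin (n + 1) → L,
      ζ = fun i l => Polynomial.aeval θ (Z i l) := ⟨_, rfl⟩
  have hζB : ∀ i l, h1 k (ζ i l) ≤ c1 * M := by
    intro j a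
    rw [hζ]
    show h1 k (Polynomial.aeval θ (Z j a)) ≤ c1 * M
    rw [Polynomial.aeval_eq_sum_range' (n := N + 1) (Nat.lt_succ_of_le (hH.dZ j a))]
    refine (h1_sum hadd hz0 _ _).trans ?_
    have h3 : ∀ i ∈ Finset.range (N + 1), h1 k ((Z j a).coeff i • θ ^ i) ≤ M + N * (N * M) := by
      intro i hi
      rw [Algebra.smul_def]
      refine (hmul _ _).trans ?_
      have h4 := hPB (Z j a) i (hH.hZ j a)
      have h5 := h1_pow hmul hz1 θ i
      have h6 : i * h1 k θ ≤ N * (N * M) :=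
        Nat.mul_le_mul (by have := Finset.mem_range.1 hi; omega) hθB
      omega
    refine (Finset.sum_le_sum h3).trans ?_
    rw [Finset.sum_const, Finset.card_range, smul_eq_mul, hc1]
    apply le_of_eq
    ring
  -- the point over `L`
  have hpt := hROT K L n (r + 1) F x U Z V hcon θ hθ
  have hFL : (up L F).IsHomogeneous d := hF.map _
  have hev : eval (fun j => algebraMap K L (x j)) (up L F) = algebraMap K L (eval x F) := by
    unfold up
    rw [eval_map]
    exact (MvPolynomial.eval₂_comp_left (algebraMap K L) (RingHom.id K) x F).symm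
  have hFxL : eval (fun j => algebraMap K L (x j)) (up L F) ≠ 0 := by
    rw [hev]
    intro h
    exact hFx ((algebraMap K L).injective (by rw [h, map_zero]))
  obtain ⟨hα0, _, _, hαi⟩ := hALP L n r d (up L F) (fun j => algebraMap K L (x j)) _ _ hd hFL hFxL
    hpt α hα
  obtain ⟨t, ht⟩ : ∃ t, t = α 1 / α 0 := ⟨_, rfl⟩
  rw [← ht] at hαi ⊢
  obtain ⟨y, hy⟩ : ∃ y : Fin (n + 1) → L, y = fun j => ∑ i : Fin (r + 1 + 1),
    t ^ (i : ℕ) * ζ i j := ⟨_, rfl⟩
  have hyB : ∀ j, h1 k (y j) ≤ c2 * (h1 k t + M) := by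
    intro j
    rw [hy]
    refine (h1_sum hadd hz0 _ _).trans ?_
    have h2 : ∀ i ∈ (Finset.univ : Finset (Fin (r + 1 + 1))), h1 k (t ^ (i : ℕ) * ζ i j) ≤
        (r + 1 + c1) * (h1 k t + M) := by
      intro i _
      have h3 := hmul (t ^ (i : ℕ)) (ζ i j)
      have h4 := h1_pow hmul hz1 t (i : ℕ)
      have h5 := hζB i j
      have h6 : (i : ℕ) * h1 k t ≤ (r + 1) * h1 k t :=
        Nat.mul_le_mul_right _ (by have := i.2; omega)
      have h7 : (r + 1 + c1) * (h1 k t + M) = (r + 1) * h1 k t + (r + 1) * M +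
        (c1 * h1 k t + c1 * M) := by ring
      have h8 := Nat.zero_le ((r + 1) * M)
      have h9 := Nat.zero_le (c1 * h1 k t)
      omega
    refine (Finset.sum_le_sum h2).trans ?_
    rw [Finset.sum_const, Finset.card_univ, Fintype.card_fin, smul_eq_mul, hc2]
    apply le_of_eq
    ring
  have hxy : ∀ j, algebraMap K L (x j) = α 0 * y j := by
    intro j
    have h2 := hpt.pt j
    rw [← h2, hy, Finset.mul_sum]
    refine Finset.sum_congr rfl fun i _ => ?_
    rw [← hα i, hαi i, hζ]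
    ring
  have hyp : α 0 * y p = 1 := by rw [← hxy, hp, map_one]
  have hxB : ∀ j, h1 k (algebraMap K L (x j)) ≤ 2 * c2 * (h1 k t + M) := by
    intro j
    have h2 : algebraMap K L (x j) = y j / y p := by
      have h3 : y p ≠ 0 := by
        intro h0
        rw [h0, mul_zero] at hyp
        exact zero_ne_one hyp
      rw [hxy]
      field_simp
      linear_combination (y j) * hyp
    rw [h2]
    have h3 := hdiv (y j) (y p)
    have h4 := hyB j
    have h5 := hyB p
    have h6 : 2 * c2 * (h1 k t + M) = c2 * (h1 k t + M) + c2 * (h1 k t + M) := by ring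
    omega
  have h2 := ((hHTA k K htr 0 0).2.2.2.2 (Fin (n + 1)) x).2
  refine (Nat.mul_le_mul_left _ h2).trans ?_
  rw [Finset.mul_sum, ← hM]
  have h3 : ∀ i ∈ (Finset.univ : Finset (Fin (n + 1))), Module.finrank K L * h1 k (x i) ≤
      2 * c2 * (h1 k t + M) := by
    intro i _
    rw [← hK]
    exact hxB i
  refine (Finset.sum_le_sum h3).trans ?_
  rw [Finset.sum_const, Finset.card_univ, Fintype.card_fin, smul_eq_mul, mul_assoc (n + 1)]

end Pool.Agent.H63.EQ
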