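import Pool.Agent.H71.EQ.Targets

/-!
# RHS. The limit value is approximated by the main regions (MP_7ecdd4_nt)
-/

set_option autoImplicit false

open MeasureTheory Filter
open scoped Topology

namespace Pool.Agent.H71.EQ

namespace RHSaux

theorem cont_extR {k : ℕ} (i : Fin (k + 1)) : Continuous fun z : Fin k → ℝ => extR z i := by
  unfold extR
  refine Fin.lastCases ?_ (fun j => ?_) i
  · simp only [Fin.snoc_last]
    fun_prop
  · simp only [Fin.snoc_castSucc]
    fun_prop

theorem cont_PR {k : ℕ} : Continuous fun z : Fin k → ℝ => PR z := by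
  unfold PR
  exact (continuous_finsetProd _ fun i _ => cont_extR i).abs

theorem meas_arg {k : ℕ} (E : ℕ) : Measurable (arg (k := k) E) := by
  unfold arg
  refine measurable_pi_iff.2 fun i => ?_
  exact (measurable_const.mul (cont_PR.measurable.pow_const _)).mul (cont_extR i).measurable

theorem meas_S {k : ℕ} : MeasurableSet {z : Fin k → ℝ | PR z ≤ 1} :=
  (isClosed_le cont_PR continuous_const).measurableSet

theorem meas_Reg (k E : ℕ) (κ lam : ℝ) : MeasurableSet (Reg k E κ lam) := by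
  unfold Reg
  have h1 : MeasurableSet {z : Fin k → ℝ | κ < PR z} :=
    (isOpen_lt continuous_const cont_PR).measurableSet
  have h3 : MeasurableSet {z : Fin k → ℝ | ∀ i, |extR z i| ≤ lam * (E : ℝ) ^ (-nu k)} := by
    have : {z : Fin k → ℝ | ∀ i, |extR z i| ≤ lam * (E : ℝ) ^ (-nu k)} =
        ⋂ i, {z : Fin k → ℝ | |extR z i| ≤ lam * (E : ℝ) ^ (-nu k)} := by
      ext z
      simp
    rw [this]
    exact MeasurableSet.iInter fun i =>
      (isClosed_le (cont_extR i).abs continuous_const).measurableSet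
  exact h1.inter (meas_S.inter h3)

theorem Reg_sub (k E : ℕ) (κ lam : ℝ) : Reg k E κ lam ⊆ {z | PR z ≤ 1} := fun _ h => h.2.1

theorem Reg_mono (k E : ℕ) {κ κ' lam lam' : ℝ} (h : κ' ≤ κ) (h' : lam ≤ lam') :
    Reg k E κ lam ⊆ Reg k E κ' lam' := by
  intro z hz
  refine ⟨h.trans_lt hz.1, hz.2.1, fun i => (hz.2.2 i).trans ?_⟩
  exact mul_le_mul_of_nonneg_right h' (Real.rpow_nonneg (Nat.cast_nonneg _) _)

/-- the volume which is left out is small -/
theorem small {k E : ℕ} (hE : 1 ≤ E) (h0 : volume {z : Fin k → ℝ | PR z = 0} = 0)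
    (hV : volume {z : Fin k → ℝ | PR z ≤ 1} < ⊤) {ε : ℝ} (hε : 0 < ε) :
    ∀ᶠ n : ℕ in atTop, (volume ({z : Fin k → ℝ | PR z ≤ 1} \
      Reg k E (1 / ((n : ℝ) + 2)) ((n : ℝ) + 1))).toReal ≤ ε := by
  set A : ℕ → Set (Fin k → ℝ) := fun n => {z : Fin k → ℝ | PR z ≤ 1} \
      Reg k E (1 / ((n : ℝ) + 2)) ((n : ℝ) + 1) with hA
  have hanti : Antitone A := by
    intro a b hab
    refine Set.sdiff_subset_sdiff_right (Reg_mono k E ?_ ?_)
    · have : (a : ℝ) ≤ b := Nat.cast_le.2 hab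
      exact one_div_le_one_div_of_le (by positivity) (by linarith)
    · have : (a : ℝ) ≤ b := Nat.cast_le.2 hab
      linarith
  have hmeas : ∀ n, NullMeasurableSet (A n) volume := fun n =>
    (meas_S.diff (meas_Reg _ _ _ _)).nullMeasurableSet
  have hfin : ∃ n, volume (A n) ≠ ⊤ := ⟨0, ((measure_mono Set.sdiff_subset).trans_lt hV).ne⟩
  have hlim := tendsto_measure_iInter_atTop hmeas hanti hfin
  have hI : volume (⋂ n, A n) = 0 := by
    refine measure_mono_null ?_ h0
    intro z hz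
    rw [Set.mem_iInter] at hz
    by_contra hne
    have hne' : PR z ≠ 0 := hne
    have hpos : 0 < PR z := lt_of_le_of_ne (abs_nonneg _) (Ne.symm hne')
    have hEp : 0 < (E : ℝ) ^ (-nu k) :=
      Real.rpow_pos_of_pos (by exact_mod_cast hE) _
    obtain ⟨a, ha⟩ := exists_nat_gt (1 / PR z)
    obtain ⟨b, hb⟩ := exists_nat_gt ((∑ i, |extR z i|) / (E : ℝ) ^ (-nu k))
    have h1 := hz (max a b)
    refine h1.2 ⟨?_, h1.1, fun i => ?_⟩
    · have h2 : 1 / PR z < ((max a b : ℕ) : ℝ) + 2 := by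
        have : (a : ℝ) ≤ ((max a b : ℕ) : ℝ) := Nat.cast_le.2 (le_max_left _ _)
        linarith
      rw [div_lt_iff₀ (by positivity)]
      rw [div_lt_iff₀ hpos] at h2
      linarith
    · have h2 : (∑ i, |extR z i|) / (E : ℝ) ^ (-nu k) < ((max a b : ℕ) : ℝ) + 1 := by
        have : (b : ℝ) ≤ ((max a b : ℕ) : ℝ) := Nat.cast_le.2 (le_max_right _ _)
        linarith
      rw [div_lt_iff₀ hEp] at h2
      exact (Finset.single_le_sum (f := fun i => |extR z i|) (fun j _ => abs_nonneg _)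
        (Finset.mem_univ i)).trans h2.le
  rw [hI] at hlim
  have h3 : ∀ᶠ n in atTop, volume (A n) < ENNReal.ofReal ε :=
    (tendsto_order.1 hlim).2 _ (ENNReal.ofReal_pos.2 hε)
  filter_upwards [h3] with n hn
  have := ENNReal.toReal_mono ENNReal.ofReal_ne_top hn.le
  rwa [ENNReal.toReal_ofReal hε.le] at this

end RHSaux

open RHSaux

/-- RHS. -/
theorem pf_RHS (h1 : T_VFN) (h2 : T_SUM) (h3 : T_NUL) (h4 : T_PRD) : T_RHS := by
  intro k hk f hf hB η hη
  obtain ⟨B, hB⟩ := hB
  have hB0 : 0 ≤ B := (abs_nonneg _).trans (hB 0)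
  have hV := (h1 k hk).1
  have h0 := (h3 k (by omega) 0).1
  set V : ℝ := (volume {z : Fin k → ℝ | PR z ≤ 1}).toReal with hVd
  have hV0 : 0 ≤ V := ENNReal.toReal_nonneg
  set a : ℕ → ℝ := fun E => wt (k + 1) E * (E : ℝ) ^ (1 - nu k) with ha
  have hnu : 1 - nu k ≠ 0 := by
    unfold nu
    have h5 : (2 : ℝ) ≤ k := by exact_mod_cast hk
    have h6 : 1 / ((k : ℝ) + 1) < 1 := by
      rw [div_lt_one (by positivity)]
      linarith
    linarith
  have ha0 : ∀ E, 0 ≤ a E := by
    intro E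
    rcases Nat.eq_zero_or_pos E with h | h
    · simp only [ha, h, Nat.cast_zero, Real.zero_rpow hnu, mul_zero, le_refl]
    · exact mul_nonneg (h4 k E hk h).2.2.1 (Real.rpow_nonneg (Nat.cast_nonneg _) _)
  have haz : a 0 = 0 := by
    simp only [ha, Nat.cast_zero, Real.zero_rpow hnu, mul_zero]
  have hsum : Summable a := h2 k hk
  set A : ℝ := ∑' E, a E with hAd
  have hA0 : 0 ≤ A := tsum_nonneg ha0
  -- integrability
  have hint : ∀ (E : ℕ) (s : Set (Fin k → ℝ)), s ⊆ {z | PR z ≤ 1} →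
      IntegrableOn (fun z => f (arg E z)) s volume := by
    intro E s hs
    refine IntegrableOn.mono_set ?_ hs
    refine Measure.integrableOn_of_bounded hV.ne
      (hf.measurable.comp (meas_arg E)).aestronglyMeasurable (M := B) ?_
    exact Eventually.of_forall fun z => by
      rw [Real.norm_eq_abs]
      exact hB _
  have hbd : ∀ (E : ℕ) (s : Set (Fin k → ℝ)), s ⊆ {z | PR z ≤ 1} →
      |∫ z in s, f (arg E z)| ≤ B * (volume s).toReal := by
    intro E s hs
    have := norm_setIntegral_le_of_norm_le_const (μ := volume) (s := s) (C := B)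
      (f := fun z => f (arg E z)) ((measure_mono hs).trans_lt hV) (fun z _ => by
        rw [Real.norm_eq_abs]
        exact hB _)
    rw [Real.norm_eq_abs] at this
    exact this
  have hI : ∀ E, |integ k E f| ≤ B * V := fun E => hbd E _ subset_rfl
  -- the series
  have hs2 : Summable fun E => a E * integ k E f := by
    refine Summable.of_norm_bounded (g := fun E => a E * (B * V)) (hsum.mul_right _) fun E => ?_
    rw [Real.norm_eq_abs, abs_mul, abs_of_nonneg (ha0 E)]
    exact mul_le_mul_of_nonneg_left (hI E) (ha0 E)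
  have hlv : limitValue k f = ∑' E, a E * integ k E f := rfl
  have htail : Tendsto (fun Y : ℕ => ∑ E ∈ Finset.range (Y + 1), a E * integ k E f) atTop
      (𝓝 (limitValue k f)) := by
    rw [hlv]
    exact (hs2.hasSum.tendsto_sum_nat).comp (tendsto_add_atTop_nat 1)
  obtain ⟨Y₀, hY₀⟩ := (Metric.tendsto_atTop.1 htail) (η / 2) (by linarith)
  refine ⟨Y₀, fun Y hY => ?_⟩
  set ε : ℝ := η / (2 * ((B + 1) * (A + 1))) with hεd
  have hε : 0 < ε := by positivity
  have hev : ∀ᶠ n : ℕ in atTop, ∀ E ∈ Finset.Icc 1 Y, (volume ({z : Fin k → ℝ | PR z ≤ 1} \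
      Reg k E (1 / ((n : ℝ) + 2)) ((n : ℝ) + 1))).toReal ≤ ε := by
    rw [Finset.eventually_all]
    intro E hE
    exact small (Finset.mem_Icc.1 hE).1 h0 hV hε
  obtain ⟨n, hn⟩ := hev.exists
  refine ⟨1 / ((n : ℝ) + 2), (n : ℝ) + 1, by positivity, ?_, ?_, ?_⟩
  · rw [div_lt_one (by positivity)]
    have : (0 : ℝ) ≤ n := Nat.cast_nonneg _
    linarith
  · have : (0 : ℝ) ≤ n := Nat.cast_nonneg _
    linarith
  intro κ lam hκ hκ' hlam
  have hdiff : ∀ E ∈ Finset.Icc 1 Y,
      |(∫ z in Reg k E κ lam, f (arg E z)) - integ k E f| ≤ B * ε := by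
    intro E hE
    have hsub := Reg_sub k E κ lam
    have h5 : integ k E f - (∫ z in Reg k E κ lam, f (arg E z)) =
        ∫ z in {z : Fin k → ℝ | PR z ≤ 1} \ Reg k E κ lam, f (arg E z) := by
      rw [setIntegral_sdiff (meas_Reg _ _ _ _) (hint E _ subset_rfl) hsub]
      rfl
    rw [abs_sub_comm, h5]
    refine (hbd E _ Set.sdiff_subset).trans (mul_le_mul_of_nonneg_left ?_ hB0)
    refine le_trans (ENNReal.toReal_mono ?_ (measure_mono ?_)) (hn E hE)
    · exact ((measure_mono Set.sdiff_subset).trans_lt hV).ne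
    · exact Set.sdiff_subset_sdiff_right (Reg_mono k E hκ' hlam)
  have hrange : ∑ E ∈ Finset.range (Y + 1), a E * integ k E f =
      ∑ E ∈ Finset.Icc 1 Y, a E * integ k E f := by
    rw [Finset.range_eq_Ico, Finset.sum_eq_sum_Ico_succ_bot (by omega), haz, zero_mul, zero_add]
    rfl
  have h6 := hY₀ Y hY
  rw [Real.dist_eq, hrange] at h6
  have h7 : |∑ E ∈ Finset.Icc 1 Y, a E * (∫ z in Reg k E κ lam, f (arg E z)) -
      ∑ E ∈ Finset.Icc 1 Y, a E * integ k E f| ≤ A * (B * ε) := by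
    rw [← Finset.sum_sub_distrib]
    refine (Finset.abs_sum_le_sum_abs _ _).trans ?_
    have h8 : ∀ E ∈ Finset.Icc 1 Y, |a E * (∫ z in Reg k E κ lam, f (arg E z)) -
        a E * integ k E f| ≤ a E * (B * ε) := by
      intro E hE
      rw [← mul_sub, abs_mul, abs_of_nonneg (ha0 E)]
      exact mul_le_mul_of_nonneg_left (hdiff E hE) (ha0 E)
    refine (Finset.sum_le_sum h8).trans ?_
    rw [← Finset.sum_mul]
    exact mul_le_mul_of_nonneg_right (hsum.sum_le_tsum _ fun E _ => ha0 E)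
      (mul_nonneg hB0 hε.le)
  have h9 : A * (B * ε) ≤ η / 2 := by
    have h10 : A * B ≤ (B + 1) * (A + 1) := by nlinarith
    have h11 : (0 : ℝ) < (B + 1) * (A + 1) := by positivity
    have h12 : A * (B * ε) = (A * B) / ((B + 1) * (A + 1)) * (η / 2) := by
      rw [hεd]
      field_simp
    rw [h12]
    have h13 : (A * B) / ((B + 1) * (A + 1)) ≤ 1 := (div_le_one h11).2 h10
    nlinarith
  calc |∑ E ∈ Finset.Icc 1 Y, wt (k + 1) E * (E : ℝ) ^ (1 - nu k) *
        (∫ z in Reg k E κ lam, f (arg E z)) - limitValue k f|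
      ≤ |∑ E ∈ Finset.Icc 1 Y, a E * (∫ z in Reg k E κ lam, f (arg E z)) -
        ∑ E ∈ Finset.Icc 1 Y, a E * integ k E f| +
        |∑ E ∈ Finset.Icc 1 Y, a E * integ k E f - limitValue k f| := abs_sub_le _ _ _
    _ ≤ η := by linarith [h6.le]

end Pool.Agent.H71.EQ
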