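import Pool.Agent.H72.EQQ.Targets
import Pool.Agent.H63.EQ.RHS
import Pool.Agent.H82.EQ.VS

/-!
# RHQ. The limit value is approximated by the main regions, with a power saving (MP_7ecdd4_nt)
-/

set_option autoImplicit false

open MeasureTheory Filter
open scoped Topology
open Pool.Agent.H71.EQ

namespace Pool.Agent.H72.EQQ

open Pool.Agent.H71.EQ.RHSaux

namespace RHQaux

open Pool.Agent.H82.EQ in
theorem ext_le {k : ℕ} (z : Fin k → ℝ) (i : Fin (k + 1)) : |extR z i| ≤ hz z := by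
  unfold extR hz
  refine Fin.lastCases ?_ (fun j => ?_) i
  · rw [Fin.snoc_last, abs_neg]
    exact le_max_right _ _
  · rw [Fin.snoc_castSucc]
    refine le_trans ?_ (le_max_left _ _)
    rw [← Real.norm_eq_abs]
    exact norm_le_pi_norm z j

theorem pz_eq {k : ℕ} (z : Fin k → ℝ) : PR z = Pool.Agent.H82.EQ.pz z := by
  unfold PR Pool.Agent.H82.EQ.pz extR
  rw [Fin.prod_univ_castSucc]
  simp only [Fin.snoc_castSucc, Fin.snoc_last, mul_neg, abs_neg]

/-- the volume which is left out -/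
theorem small {k : ℕ} (hk : 2 ≤ k) : ∃ C : ℝ, 0 < C ∧
    (volume {z : Fin k → ℝ | PR z ≤ 1}).toReal ≤ C ∧
    volume {z : Fin k → ℝ | PR z ≤ 1} ≠ ⊤ ∧
    ∀ (E : ℕ) (κ lam : ℝ), 1 ≤ E → 0 < κ → κ < 1 → 1 ≤ lam →
    (volume ({z : Fin k → ℝ | PR z ≤ 1} \ Reg k E κ lam)).toReal ≤
      C * (κ ^ (1 / 2 : ℝ) + E * lam ^ (-(1 / 2) : ℝ)) := by
  obtain ⟨hV, hfin, hT, C, hC, hc⟩ := Pool.Agent.H82.EQ.vs k hk
  set V := Pool.Agent.H82.EQ.V k with hVd
  have hset : {z : Fin k → ℝ | PR z ≤ 1} = {z : Fin k → ℝ | Pool.Agent.H82.EQ.pz z ≤ 1} := by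
    ext z
    simp only [Set.mem_ofPred_eq, pz_eq]
  have hVe : (volume {z : Fin k → ℝ | PR z ≤ 1}).toReal = V := by
    rw [hset]
    rfl
  refine ⟨C + V, by positivity, by rw [hVe]; linarith, by rw [hset]; exact hfin, ?_⟩
  intro E κ lam hE hκ hκ1 hlam
  have hE1 : (1 : ℝ) ≤ E := by exact_mod_cast hE
  have hk2 : (2 : ℝ) ≤ k := by exact_mod_cast hk
  have hl0 : 0 < lam := by linarith
  have hlp : 0 < lam ^ (-(1 / 2) : ℝ) := Real.rpow_pos_of_pos hl0 _
  have hκp : 0 ≤ κ ^ (1 / 2 : ℝ) := Real.rpow_nonneg hκ.le _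
  have hnu0 : 0 ≤ nu k := by
    unfold nu
    positivity
  have hnu1 : nu k ≤ 1 := by
    unfold nu
    rw [div_le_one (by positivity)]
    linarith
  set μ : ℝ := lam * (E : ℝ) ^ (-nu k) with hμ
  have hEp : 0 < (E : ℝ) ^ (-nu k) := Real.rpow_pos_of_pos (by linarith) _
  have hμ0 : 0 < μ := mul_pos hl0 hEp
  -- the first part
  have h1 : volume {z : Fin k → ℝ | PR z ≤ κ} ≤ ENNReal.ofReal (V * κ ^ (1 / 2 : ℝ)) := by
    have : {z : Fin k → ℝ | PR z ≤ κ} = {z : Fin k → ℝ | Pool.Agent.H82.EQ.pz z ≤ κ} := by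
      ext z
      simp only [Set.mem_ofPred_eq, pz_eq]
    rw [this, hT κ hκ]
    refine ENNReal.ofReal_le_ofReal (mul_le_mul_of_nonneg_left ?_ hV.le)
    refine Real.rpow_le_rpow_of_exponent_ge hκ hκ1.le ?_
    rw [div_le_div_iff₀ (by norm_num) (by positivity)]
    linarith
  -- the key inequality for the exponents
  have hkey : μ ^ (-(1 / 2) : ℝ) ≤ E * lam ^ (-(1 / 2) : ℝ) := by
    rw [hμ, Real.mul_rpow hl0.le hEp.le, ← Real.rpow_mul (by linarith), mul_comm]
    refine mul_le_mul_of_nonneg_right ?_ hlp.le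
    calc (E : ℝ) ^ (-nu k * (-(1 / 2))) ≤ (E : ℝ) ^ (1 : ℝ) := by
          refine Real.rpow_le_rpow_of_exponent_le hE1 ?_
          nlinarith
      _ = E := Real.rpow_one _
  -- the second part
  have h2 : volume {z : Fin k → ℝ | PR z ≤ 1 ∧ μ < Pool.Agent.H82.EQ.hz z} ≤
      ENNReal.ofReal ((C + V) * (E * lam ^ (-(1 / 2) : ℝ))) := by
    rcases le_or_gt 1 μ with h | h
    · have h3 := hc 1 μ one_pos h
      rw [Real.one_rpow, Real.one_rpow, mul_one, mul_one] at h3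
      have : {z : Fin k → ℝ | PR z ≤ 1 ∧ μ < Pool.Agent.H82.EQ.hz z} =
          {z : Fin k → ℝ | Pool.Agent.H82.EQ.pz z ≤ 1 ∧ μ < Pool.Agent.H82.EQ.hz z} := by
        ext z
        simp only [Set.mem_ofPred_eq, pz_eq]
      rw [this]
      refine h3.trans (ENNReal.ofReal_le_ofReal ?_)
      have h4 : C * μ ^ (-(1 / 2) : ℝ) ≤ C * (E * lam ^ (-(1 / 2) : ℝ)) :=
        mul_le_mul_of_nonneg_left hkey hC.le
      have h5 : 0 ≤ V * (E * lam ^ (-(1 / 2) : ℝ)) := by positivity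
      nlinarith
    · have h3 : (1 : ℝ) ≤ E * lam ^ (-(1 / 2) : ℝ) := by
        refine le_trans ?_ hkey
        exact Real.one_le_rpow_of_pos_of_le_one_of_nonpos hμ0 h.le (by norm_num)
      refine (measure_mono (t := {z : Fin k → ℝ | PR z ≤ 1}) fun z hz => hz.1).trans ?_
      rw [← ENNReal.ofReal_toReal (show volume {z : Fin k → ℝ | PR z ≤ 1} ≠ ⊤ by
        rw [hset]; exact hfin), hVe]
      refine ENNReal.ofReal_le_ofReal ?_
      nlinarith
  have hsub : {z : Fin k → ℝ | PR z ≤ 1} \ Reg k E κ lam ⊆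
      {z : Fin k → ℝ | PR z ≤ κ} ∪
        {z : Fin k → ℝ | PR z ≤ 1 ∧ μ < Pool.Agent.H82.EQ.hz z} := by
    intro z hz
    by_cases h : PR z ≤ κ
    · exact Or.inl h
    · refine Or.inr ⟨hz.1, ?_⟩
      by_contra h4
      refine hz.2 ⟨not_le.1 h, hz.1, fun i => (ext_le z i).trans ?_⟩
      exact not_lt.1 h4
  have h6 : volume ({z : Fin k → ℝ | PR z ≤ 1} \ Reg k E κ lam) ≤
      ENNReal.ofReal ((C + V) * (κ ^ (1 / 2 : ℝ) + E * lam ^ (-(1 / 2) : ℝ))) := by
    refine (measure_mono hsub).trans ((measure_union_le _ _).trans ?_)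
    refine (add_le_add h1 h2).trans ?_
    rw [← ENNReal.ofReal_add (by positivity) (by positivity)]
    refine ENNReal.ofReal_le_ofReal ?_
    have : 0 ≤ C * κ ^ (1 / 2 : ℝ) := by positivity
    nlinarith
  have h7 := ENNReal.toReal_mono ENNReal.ofReal_ne_top h6
  rwa [ENNReal.toReal_ofReal (by positivity)] at h7

end RHQaux

open RHQaux

/-- RHQ. -/
theorem pf_RHQ (h2 : T_SEQ) (h4 : T_PRD) : T_RHQ := by
  intro k hk
  obtain ⟨c, C₂, hc, hC₂, hs⟩ := h2 k hk
  obtain ⟨C₁, hC₁, hV1, hV, hsm⟩ := small hk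
  refine ⟨c, C₂ * C₁, hc, by positivity, ?_⟩
  intro Y κ lam B f hY hκ hκ1 hlam hf hB
  have hB0 : 0 ≤ B := (abs_nonneg _).trans (hB 0)
  set V : ℝ := (volume {z : Fin k → ℝ | PR z ≤ 1}).toReal with hVd
  have hV0 : 0 ≤ V := ENNReal.toReal_nonneg
  set a : ℕ → ℝ := fun E => wt (k + 1) E * (E : ℝ) ^ (1 - nu k) with ha
  have hY1 : (1 : ℝ) ≤ Y := by exact_mod_cast hY
  have hnu : 1 - nu k ≠ 0 := by
    unfold nu
    have h5 : (2 : ℝ) ≤ k := by exact_mod_cast hk
    have h6 : 1 / ((k : ℝ) + 1) < 1 := by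
      rw [div_lt_one (by positivity)]
      linarith
    linarith
  have ha0 : ∀ E, 0 ≤ a E := by
    intro E
    rcases Nat.eq_zero_or_pos E with h | h
    · simp only [ha, h, Nat.cast_zero, Real.zero_rpow hnu, mul_zero, le_refl]
    · exact mul_nonneg (h4 k E hk h).2.2.1 (Real.rpow_nonneg (Nat.cast_nonneg _) _)
  have haz : a 0 = 0 := by
    simp only [ha, Nat.cast_zero, Real.zero_rpow hnu, mul_zero]
  have hsum : Summable a := by
    refine summable_of_sum_range_le (c := C₂) ha0 fun n => ?_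
    have h5 : ∑ i ∈ Finset.range n, a i = ∑ i ∈ (Finset.range n).filter (fun i => 1 ≤ i), a i := by
      refine (Finset.sum_filter_of_ne fun x _ hx => ?_).symm
      by_contra h
      have : x = 0 := by omega
      exact hx (by rw [this, haz])
    rw [h5]
    have h6 := hs 1 ((Finset.range n).filter (fun i => 1 ≤ i)) le_rfl (fun E hE => by
      exact_mod_cast (Finset.mem_filter.1 hE).2)
    rwa [Real.one_rpow, mul_one] at h6
  -- integrability
  have hint : ∀ (E : ℕ) (s : Set (Fin k → ℝ)), s ⊆ {z | PR z ≤ 1} →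
      IntegrableOn (fun z => f (arg E z)) s volume := by
    intro E s hs
    refine IntegrableOn.mono_set ?_ hs
    refine Measure.integrableOn_of_bounded hV
      (hf.measurable.comp (meas_arg E)).aestronglyMeasurable (M := B) ?_
    exact Eventually.of_forall fun z => by
      rw [Real.norm_eq_abs]
      exact hB _
  have hbd : ∀ (E : ℕ) (s : Set (Fin k → ℝ)), s ⊆ {z | PR z ≤ 1} →
      |∫ z in s, f (arg E z)| ≤ B * (volume s).toReal := by
    intro E s hs
    have := norm_setIntegral_le_of_norm_le_const (μ := volume) (s := s) (C := B)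
      (f := fun z => f (arg E z)) ((measure_mono hs).trans_lt hV.lt_top) (fun z _ => by
        rw [Real.norm_eq_abs]
        exact hB _)
    rw [Real.norm_eq_abs] at this
    exact this
  have hI : ∀ E, |integ k E f| ≤ B * V := fun E => hbd E _ subset_rfl
  have hs2 : Summable fun E => a E * integ k E f := by
    refine Summable.of_norm_bounded (g := fun E => a E * (B * V)) (hsum.mul_right _) fun E => ?_
    rw [Real.norm_eq_abs, abs_mul, abs_of_nonneg (ha0 E)]
    exact mul_le_mul_of_nonneg_left (hI E) (ha0 E)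
  have hlv : limitValue k f = ∑' E, a E * integ k E f := rfl
  have htail : Tendsto (fun N : ℕ => ∑ E ∈ Finset.range (N + 1), a E * integ k E f) atTop
      (𝓝 (limitValue k f)) := by
    rw [hlv]
    exact (hs2.hasSum.tendsto_sum_nat).comp (tendsto_add_atTop_nat 1)
  have hrange : ∑ E ∈ Finset.range (Y + 1), a E * integ k E f =
      ∑ E ∈ Finset.Icc 1 Y, a E * integ k E f := by
    rw [Finset.range_eq_Ico, Finset.sum_eq_sum_Ico_succ_bot (by omega), haz, zero_mul, zero_add]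
    rfl
  have h6 : |∑ E ∈ Finset.Icc 1 Y, a E * integ k E f - limitValue k f| ≤
      C₂ * (Y : ℝ) ^ (-c) * (B * V) := by
    rw [abs_sub_comm]
    have h7 : Tendsto (fun N : ℕ => |∑ E ∈ Finset.range (N + 1), a E * integ k E f -
        ∑ E ∈ Finset.Icc 1 Y, a E * integ k E f|) atTop
        (𝓝 |limitValue k f - ∑ E ∈ Finset.Icc 1 Y, a E * integ k E f|) :=
      (htail.sub_const _).abs
    refine le_of_tendsto h7 ?_
    filter_upwards [eventually_ge_atTop Y] with N hN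
    rw [← hrange, ← Finset.sum_range_add_sum_Ico _ (show Y + 1 ≤ N + 1 by omega),
      add_sub_cancel_left]
    refine (Finset.abs_sum_le_sum_abs _ _).trans ?_
    have h8 : ∀ E ∈ Finset.Ico (Y + 1) (N + 1), |a E * integ k E f| ≤ a E * (B * V) := by
      intro E _
      rw [abs_mul, abs_of_nonneg (ha0 E)]
      exact mul_le_mul_of_nonneg_left (hI E) (ha0 E)
    refine (Finset.sum_le_sum h8).trans ?_
    rw [← Finset.sum_mul]
    refine mul_le_mul_of_nonneg_right ?_ (mul_nonneg hB0 hV0)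
    refine hs Y _ hY1 fun E hE => ?_
    have := (Finset.mem_Ico.1 hE).1
    exact_mod_cast (by omega : Y ≤ E)
  set D : ℝ := κ ^ (1 / 2 : ℝ) + Y * lam ^ (-(1 / 2) : ℝ) with hD
  have hlp : 0 ≤ lam ^ (-(1 / 2) : ℝ) := Real.rpow_nonneg (by linarith) _
  have hD0 : 0 ≤ D := add_nonneg (Real.rpow_nonneg hκ.le _) (mul_nonneg (by linarith) hlp)
  have hdiff : ∀ E ∈ Finset.Icc 1 Y,
      |(∫ z in Reg k E κ lam, f (arg E z)) - integ k E f| ≤ B * (C₁ * D) := by
    intro E hE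
    have hsub := Reg_sub k E κ lam
    have h5 : integ k E f - (∫ z in Reg k E κ lam, f (arg E z)) =
        ∫ z in {z : Fin k → ℝ | PR z ≤ 1} \ Reg k E κ lam, f (arg E z) := by
      rw [setIntegral_sdiff (meas_Reg _ _ _ _) (hint E _ subset_rfl) hsub]
      rfl
    rw [abs_sub_comm, h5]
    refine (hbd E _ Set.sdiff_subset).trans (mul_le_mul_of_nonneg_left ?_ hB0)
    refine (hsm E κ lam (Finset.mem_Icc.1 hE).1 hκ hκ1 hlam).trans ?_
    refine mul_le_mul_of_nonneg_left ?_ hC₁.le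
    have : (E : ℝ) ≤ Y := by exact_mod_cast (Finset.mem_Icc.1 hE).2
    have := mul_le_mul_of_nonneg_right this hlp
    rw [hD]
    linarith
  have h7 : |∑ E ∈ Finset.Icc 1 Y, a E * (∫ z in Reg k E κ lam, f (arg E z)) -
      ∑ E ∈ Finset.Icc 1 Y, a E * integ k E f| ≤ C₂ * (B * (C₁ * D)) := by
    rw [← Finset.sum_sub_distrib]
    refine (Finset.abs_sum_le_sum_abs _ _).trans ?_
    have h8 : ∀ E ∈ Finset.Icc 1 Y, |a E * (∫ z in Reg k E κ lam, f (arg E z)) -
        a E * integ k E f| ≤ a E * (B * (C₁ * D)) := by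
      intro E hE
      rw [← mul_sub, abs_mul, abs_of_nonneg (ha0 E)]
      exact mul_le_mul_of_nonneg_left (hdiff E hE) (ha0 E)
    refine (Finset.sum_le_sum h8).trans ?_
    rw [← Finset.sum_mul]
    refine mul_le_mul_of_nonneg_right ?_ (by positivity)
    have h9 := hs 1 (Finset.Icc 1 Y) le_rfl (fun E hE => by
      exact_mod_cast (Finset.mem_Icc.1 hE).1)
    rwa [Real.one_rpow, mul_one] at h9
  have hYc : 0 ≤ (Y : ℝ) ^ (-c) := Real.rpow_nonneg (by linarith) _
  have h10 : C₂ * (Y : ℝ) ^ (-c) * (B * V) ≤ C₂ * (Y : ℝ) ^ (-c) * (B * C₁) :=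
    mul_le_mul_of_nonneg_left (mul_le_mul_of_nonneg_left hV1 hB0) (by positivity)
  calc |∑ E ∈ Finset.Icc 1 Y, wt (k + 1) E * (E : ℝ) ^ (1 - nu k) *
        (∫ z in Reg k E κ lam, f (arg E z)) - limitValue k f|
      ≤ |∑ E ∈ Finset.Icc 1 Y, a E * (∫ z in Reg k E κ lam, f (arg E z)) -
        ∑ E ∈ Finset.Icc 1 Y, a E * integ k E f| +
        |∑ E ∈ Finset.Icc 1 Y, a E * integ k E f - limitValue k f| := abs_sub_le _ _ _
    _ ≤ C₂ * (B * (C₁ * D)) + C₂ * (Y : ℝ) ^ (-c) * (B * C₁) := add_le_add h7 (h6.trans h10)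
    _ = C₂ * C₁ * B * ((Y : ℝ) ^ (-c) + κ ^ (1 / 2 : ℝ) + Y * lam ^ (-(1 / 2) : ℝ)) := by
      rw [hD]
      ring

end Pool.Agent.H72.EQQ
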